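import Mathlib
import Pool.Agent.H.MP_4ba7b3_gt.Defs
import Pool.Agent.H.MP_4ba7b3_gt.A

open Pool.Agent.H.MP_4ba7b3_gt

namespace Pool.Agent.Results.MP_4ba7b3_gt.NotCompatible

theorem result : ∃ b : ℕ → ℕ, IsD b ∧ ∃ χ : ℤ →+ UnitAddCircle,
    @Continuous _ _ (supTop b) _ χ ∧ ¬ InH b χ :=
  main1

end Pool.Agent.Results.MP_4ba7b3_gt.NotCompatible
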